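import Pool.Agent.V11245.CoreMain

/-!
# No long well-order is `Σ_1`-definable at a limit of measurable cardinals

Let `κ` be a limit of measurable cardinals, and let `D` be a set of more than `κ` many subsets
of `κ`.  Then no well-ordering of `D` is definable by a `Σ_1`-formula with parameters in
`H(κ) ∪ {κ}`.

Idea of the proof: there is `A ∈ D` which is moved by some iterated ultrapower `i_λ : V → M_λ`,
`λ < κ`, of a given measure on `δ`, for every measurable cardinal `δ < κ` (the sets not moved by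
these embeddings are determined by their part below `δ`).  All embeddings used fix `κ` and the
parameters, so they preserve the well-order, and therefore they move `A` upwards.  Choose measurable
cardinals `δ_0 < δ_1 < ...` and such iterations of lengths `λ_n < δ_{n+1}`, let `j_n` be the `n`-th
one and let `B_n` be the image of `A` under the iteration of the blocks `n, n+1, ...`.  From
`A < j_n(A)` we get `B_{n+1} < B_n`, by applying the iteration of the blocks `n+1, n+2, ...` (which
maps `j_n(A)` to `B_n`).  So `B_0 > B_1 > ...` is an infinite descending sequence.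
-/

set_option autoImplicit false

namespace Pool.Agent.Results.MP_1748a2_lc.NoLongWellOrder

open Cardinal Pool.Agent.V11245

universe u

theorem result (κ : Cardinal.{u}) (hκ : IsLimitOfMeasurables κ) (D : Set ZFSet.{u})
    (hD : ∀ A ∈ D, A ⊆ κ.ord.toZFSet) (hcard : Cardinal.lift.{u+1} κ < #D)
    (r : D → D → Prop) (hr : IsWellOrder D r) :
    ¬ SigmaOneDefinable κ {x | ∃ a b : D, r a b ∧ x = ZFSet.pair a.1 b.1} := by
  classical
  rintro ⟨φ, k, z, hz, hX⟩
  have hlim : ∀ c < κ, ∃ δ, IsMeasurable δ ∧ c < δ ∧ δ < κ := by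
    intro c hc
    obtain ⟨δ, h1, h2, h3⟩ := hκ.2 c.ord (Cardinal.ord_lt_ord.2 hc)
    exact ⟨δ, h1, Cardinal.ord_lt_ord.1 h2, h3⟩
  have hκ0 : ℵ₀ < κ := by
    obtain ⟨δ, h1, -, h2⟩ := hlim 0 (pos_iff_ne_zero.2 hκ.1)
    exact h1.1.trans h2
  -- a bound for the parameters
  obtain ⟨ν, hν, -, hν2⟩ := exists_bound hκ0
    (fun i : ULift.{u} (Fin k) => if h : InH κ (z i.down) then h.choose.card else 0) Finset.univ
    (fun i _ => by
      by_cases h : InH κ (z i.down)
      · simp only [dif_pos h]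
        exact h.choose_spec.2.2
      · simp only [dif_neg h]
        exact pos_iff_ne_zero.2 hκ.1)
  refine core hκ.1 hlim D hD hcard
    (fun a b => ∃ (ha : a ∈ D) (hb : b ∈ D), r ⟨a, ha⟩ ⟨b, hb⟩)
    (fun a b ⟨ha, hb, _⟩ => ⟨ha, hb⟩) ?_ ?_ hν ?_
  · intro a ha b hb
    rcases trichotomous_of r ⟨a, ha⟩ ⟨b, hb⟩ with h | h | h
    · exact Or.inl ⟨ha, hb, h⟩
    · exact Or.inr (Or.inl (Subtype.ext_iff.1 h))
    · exact Or.inr (Or.inr ⟨hb, ha, h⟩)
  · intro f hf
    have hfD : ∀ n, f n ∈ D := fun n => (hf n).2.1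
    obtain ⟨n, hn⟩ := WellFounded.not_rel_apply_succ (r := r) (fun n => ⟨f n, hfD n⟩)
    exact hn (hf n).2.2
  · intro Λ _ Pt U S h hS hemb a b hab
    obtain ⟨ha, hb, hab⟩ := hab
    have h1 : ZFSet.pair a b ∈ {x | ∃ a b : D, r a b ∧ x = ZFSet.pair a.1 b.1} :=
      ⟨⟨a, ha⟩, ⟨b, hb⟩, hab, rfl⟩
    rw [hX] at h1
    have h2 := emb_sat_S1 h φ _ h1
    have hempty : emb h ∅ = ∅ := by
      refine emb_fix h hS ∅ ⟨∅, ZFSet.isTransitive_empty, subset_rfl, ?_⟩
      rw [ZFSet.card_empty]
      exact (zero_le).trans_lt (Order.lt_succ ν)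
    have h3 : ∀ i : ℕ, emb h (if h : i < k then z ⟨i, h⟩ else ∅) =
        if h : i < k then z ⟨i, h⟩ else ∅ := by
      intro i
      by_cases hi : i < k
      · rw [dif_pos hi]
        rcases hz ⟨i, hi⟩ with h4 | h4
        · refine emb_fix h hS _ ⟨h4.choose, h4.choose_spec.1, h4.choose_spec.2.1, ?_⟩
          have := hν2 ⟨⟨i, hi⟩⟩ (Finset.mem_univ _)
          simp only [dif_pos h4] at this
          exact Order.lt_succ_of_le this
        · rw [h4]
          exact hemb
      · rw [dif_neg hi]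
        exact hempty
    rw [cons_apply (emb h), emb_pair] at h2
    simp only [h3] at h2
    have h5 : ZFSet.pair (emb h a) (emb h b) ∈
        {x | ∃ a b : D, r a b ∧ x = ZFSet.pair a.1 b.1} := by
      rw [hX]
      exact h2
    obtain ⟨a', b', hab', heq⟩ := h5
    obtain ⟨h6, h7⟩ := ZFSet.pair_injective heq
    rw [h6, h7]
    exact ⟨a'.2, b'.2, hab'⟩

end Pool.Agent.Results.MP_1748a2_lc.NoLongWellOrder
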